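import Pool.Agent.H31.AF

namespace Pool.Agent.Results.MP_98e941_al.Main

open Pool.Agent.H31.AF

theorem result : ∃ X : Rp ℤ → Prop, Abstract X ∧ (∃ T, DefinedBy X T) ∧
    (∀ ρ, X ρ ↔ X ρ.bar) ∧ (∀ ρ H, X ρ → X (ρ.sub H)) ∧
    ¬∃ T, (∀ φ ∈ T, IsAction φ) ∧ DefinedBy X T :=
  ⟨X, main⟩

end Pool.Agent.Results.MP_98e941_al.Main
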